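import Mathlib

set_option autoImplicit false
set_option linter.unusedSectionVars false

/-!
# MP_8b8716_co, Weil's bound: monic polynomials over a finite field, Newton's identities
-/

noncomputable section

namespace Pool.Agent.MP_8b8716_co_W

open Polynomial

variable {k : Type} [Field k] [Finite k]

theorem finite_monic (j : ℕ) : {f : k[X] | f.Monic ∧ f.natDegree = j}.Finite := by
  have e := (monicEquivDegreeLT (R := k) j).trans (degreeLTEquiv k j).toEquiv
  exact Set.finite_coe_iff.1 (Finite.of_equiv _ e.symm)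

/-- the monic polynomials of degree `j` -/
def MD (k : Type) [Field k] [Finite k] (j : ℕ) : Finset k[X] := (finite_monic (k := k) j).toFinset

theorem mem_MD {j : ℕ} {f : k[X]} : f ∈ MD k j ↔ f.Monic ∧ f.natDegree = j := by
  unfold MD
  rw [Set.Finite.mem_toFinset]
  rfl

theorem MD_zero : MD k 0 = {1} := by
  ext f
  rw [mem_MD, Finset.mem_singleton]
  constructor
  · rintro ⟨h1, h2⟩
    exact h1.natDegree_eq_zero.mp h2
  · rintro rfl
    exact ⟨monic_one, natDegree_one⟩

theorem mul_mem_MD {i j : ℕ} {f g : k[X]} (hf : f ∈ MD k i) (hg : g ∈ MD k j) :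
    f * g ∈ MD k (i + j) := by
  rw [mem_MD] at *
  exact ⟨hf.1.mul hg.1, by rw [hf.1.natDegree_mul hg.1, hf.2, hg.2]⟩

/-- von Mangoldt function -/
def vM (f : k[X]) : ℕ := by
  classical
  exact if h : ∃ P : k[X], (P.Monic ∧ Irreducible P) ∧ ∃ m : ℕ, 0 < m ∧ f = P ^ m then
    h.choose.natDegree else 0

omit [Finite k] in
theorem irreducible_pow_unique {P Q : k[X]} (hP : P.Monic ∧ Irreducible P)
    (hQ : Q.Monic ∧ Irreducible Q) {m n : ℕ}
    (hm : 0 < m) (h : P ^ m = Q ^ n) : P = Q ∧ m = n := by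
  have h1 : P ∣ Q ^ n := h ▸ dvd_pow_self P hm.ne'
  have h2 : P = Q := eq_of_monic_of_associated hP.1 hQ.1
    ((hP.2.prime.dvd_of_dvd_pow h1 |> fun h3 => hP.2.associated_of_dvd hQ.2 h3))
  subst h2
  refine ⟨rfl, ?_⟩
  have h3 := congrArg natDegree h
  rw [natDegree_pow, natDegree_pow] at h3
  exact Nat.eq_of_mul_eq_mul_right hP.2.natDegree_pos h3

omit [Finite k] in
theorem vM_pow {P : k[X]} (hP : P.Monic ∧ Irreducible P) {m : ℕ} (hm : 0 < m) :
    vM (P ^ m) = P.natDegree := by
  unfold vM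
  have h : ∃ Q : k[X], (Q.Monic ∧ Irreducible Q) ∧ ∃ n : ℕ, 0 < n ∧ P ^ m = Q ^ n :=
    ⟨P, hP, m, hm, rfl⟩
  rw [dif_pos h]
  obtain ⟨h1, n, h2, h3⟩ := h.choose_spec
  rw [← (irreducible_pow_unique hP h1 hm h3).1]

omit [Finite k] in
theorem vM_eq_zero {f : k[X]}
    (h : ¬ ∃ P : k[X], (P.Monic ∧ Irreducible P) ∧ ∃ m : ℕ, 0 < m ∧ f = P ^ m) :
    vM f = 0 := by
  unfold vM
  rw [dif_neg h]

namespace Newton

open UniqueFactorizationMonoid

variable [DecidableEq k]

omit [Finite k] in
theorem mem_factors {P f : k[X]} (h : P ∈ normalizedFactors f) : P.Monic ∧ Irreducible P := by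
  have h1 := irreducible_of_normalized_factor P h
  have h2 := normalize_normalized_factor P h
  refine ⟨?_, h1⟩
  rw [← h2]
  exact monic_normalize h1.ne_zero

omit [Finite k] in
theorem pow_dvd_iff {P f : k[X]} (hP : P.Monic ∧ Irreducible P) (hf : f ≠ 0) (m : ℕ) :
    P ^ m ∣ f ↔ m ≤ (normalizedFactors f).count P := by
  rw [pow_dvd_iff_le_emultiplicity, emultiplicity_eq_count_normalizedFactors hP.2 hf,
    hP.1.normalize_eq_self]
  exact_mod_cast Iff.rfl

omit [Finite k] in
theorem prod_factors {f : k[X]} (hf : f.Monic) : (normalizedFactors f).prod = f := by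
  refine eq_of_monic_of_associated ?_ hf (prod_normalizedFactors hf.ne_zero)
  have h := monic_multiset_prod_of_monic (normalizedFactors f) (fun P => P)
    fun P hP => (mem_factors hP).1
  rwa [Multiset.map_id'] at h

omit [Finite k] in
theorem sum_degree {f : k[X]} (hf : f.Monic) :
    ((normalizedFactors f).map natDegree).sum = f.natDegree := by
  have h1 := prod_factors hf
  have h2 : (0 : k[X]) ∉ normalizedFactors f := zero_notMem_normalizedFactors f
  have h3 := natDegree_multiset_prod (normalizedFactors f) h2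
  rw [h1] at h3
  exact h3.symm

omit [Finite k] in
/-- the sum of von Mangoldt over the divisors -/
theorem key {f : k[X]} (hf : f.Monic) (S : Finset k[X])
    (hS : ∀ d, d ∈ S → d ∣ f) (hS' : ∀ d, d.Monic → d ∣ f → d ≠ 1 → d ∈ S) :
    ∑ d ∈ S, vM d = f.natDegree := by
  classical
  set s := normalizedFactors f with hs
  have hsub : s.toFinset.biUnion (fun P => (Finset.Icc 1 (s.count P)).image (fun m => P ^ m))
      ⊆ S := by
    intro d hd
    simp only [Finset.mem_biUnion, Multiset.mem_toFinset, Finset.mem_image,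
      Finset.mem_Icc] at hd
    obtain ⟨P, hP, m, ⟨hm1, hm2⟩, rfl⟩ := hd
    have hPi := mem_factors hP
    refine hS' _ (hPi.1.pow m) ((pow_dvd_iff hPi hf.ne_zero m).mpr hm2) ?_
    intro h
    have h1 : IsUnit (P ^ m) := h ▸ isUnit_one
    exact hPi.2.not_isUnit ((isUnit_pow_iff (by omega)).mp h1)
  rw [← Finset.sum_subset hsub, Finset.sum_biUnion]
  · have h1 : ∀ P ∈ s.toFinset, ∑ d ∈ (Finset.Icc 1 (s.count P)).image (fun m => P ^ m), vM d
        = s.count P • P.natDegree := by
      intro P hP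
      have hPi := mem_factors (Multiset.mem_toFinset.mp hP)
      rw [Finset.sum_image]
      · have h2 : ∀ m ∈ Finset.Icc 1 (s.count P), vM (P ^ m) = P.natDegree := by
          intro m hm
          rw [Finset.mem_Icc] at hm
          exact vM_pow hPi (by omega)
        rw [Finset.sum_congr rfl h2, Finset.sum_const, Nat.card_Icc]
        simp
      · intro m hm n _ hmn
        rw [Finset.mem_coe, Finset.mem_Icc] at hm
        exact (irreducible_pow_unique hPi hPi (by omega) hmn).2
    rw [Finset.sum_congr rfl h1, ← Finset.sum_multiset_map_count]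
    exact sum_degree hf
  · intro P hP Q hQ hne
    rw [Function.onFun, Finset.disjoint_left]
    intro d hd hd'
    simp only [Finset.mem_image, Finset.mem_Icc] at hd hd'
    obtain ⟨m, hm, rfl⟩ := hd
    obtain ⟨n, hn, h⟩ := hd'
    have hPi := mem_factors (Multiset.mem_toFinset.mp hP)
    have hQi := mem_factors (Multiset.mem_toFinset.mp hQ)
    exact hne (irreducible_pow_unique hPi hQi (by omega) h.symm).1
  · intro d hd hd'
    apply vM_eq_zero
    rintro ⟨P, hP, m, hm, rfl⟩
    apply hd'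
    simp only [Finset.mem_biUnion, Multiset.mem_toFinset, Finset.mem_image, Finset.mem_Icc]
    have h1 := (pow_dvd_iff hP hf.ne_zero m).mp (hS _ hd)
    refine ⟨P, ?_, m, ⟨by omega, h1⟩, rfl⟩
    exact Multiset.count_pos.mp (lt_of_lt_of_le hm h1)

open scoped Classical in
theorem key' {j : ℕ} {f : k[X]} (hf : f ∈ MD k j) :
    ∑ i ∈ Finset.range j, ∑ d ∈ MD k (i + 1), (if d ∣ f then (vM d : ℂ) else 0) = j := by
  rw [mem_MD] at hf
  have h1 := key hf.1 ((Finset.range j).biUnion (fun i => (MD k (i + 1)).filter (fun d => d ∣ f)))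
    (by
      intro d hd
      simp only [Finset.mem_biUnion, Finset.mem_filter] at hd
      obtain ⟨i, _, _, h⟩ := hd
      exact h)
    (by
      intro d hdm hd hd1
      have h2 : d.natDegree ≤ j := by
        rw [← hf.2]
        exact natDegree_le_of_dvd hd hf.1.ne_zero
      have h3 : d.natDegree ≠ 0 := by
        intro h
        exact hd1 (hdm.natDegree_eq_zero.mp h)
      simp only [Finset.mem_biUnion, Finset.mem_filter, Finset.mem_range]
      refine ⟨d.natDegree - 1, by omega, ?_, hd⟩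
      rw [mem_MD]
      exact ⟨hdm, by omega⟩)
  rw [Finset.sum_biUnion] at h1
  · rw [hf.2] at h1
    have h2 := congrArg (Nat.cast : ℕ → ℂ) h1
    push_cast at h2
    rw [← h2]
    refine Finset.sum_congr rfl fun i _ => ?_
    rw [Finset.sum_filter]
  · intro i _ i' _ hne
    rw [Function.onFun, Finset.disjoint_left]
    intro d hd hd'
    rw [Finset.mem_filter, mem_MD] at hd hd'
    have h2 := hd.1.2
    have h3 := hd'.1.2
    omega

open scoped Classical in
theorem multiples (Φ : k[X] → ℂ)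
    (hm : ∀ f g : k[X], f.Monic → g.Monic → Φ (f * g) = Φ f * Φ g) {i j : ℕ}
    (hij : i ≤ j) {d : k[X]} (hd : d ∈ MD k i) :
    ∑ f ∈ MD k j, (if d ∣ f then Φ f else 0) = Φ d * ∑ h ∈ MD k (j - i), Φ h := by
  have hd' := mem_MD.1 hd
  have hd0 := hd'.1.ne_zero
  rw [← Finset.sum_filter, Finset.mul_sum]
  symm
  refine Finset.sum_bij (fun h _ => d * h) ?_ ?_ ?_ ?_
  · intro h hh
    rw [Finset.mem_filter]
    refine ⟨?_, dvd_mul_right d h⟩
    have := mul_mem_MD hd hh
    rwa [show i + (j - i) = j by omega] at this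
  · intro h _ h' _ e
    exact mul_left_cancel₀ hd0 e
  · intro f hf
    rw [Finset.mem_filter] at hf
    obtain ⟨hf, h, rfl⟩ := hf
    rw [mem_MD] at hf
    have hh : h.Monic := hd'.1.of_mul_monic_left hf.1
    refine ⟨h, ?_, rfl⟩
    have h1 := hf.2
    rw [hd'.1.natDegree_mul hh, hd'.2] at h1
    rw [mem_MD]
    exact ⟨hh, by omega⟩
  · intro h hh
    exact (hm d h hd'.1 (mem_MD.1 hh).1).symm

end Newton

theorem newton (Φ : k[X] → ℂ) (hm : ∀ f g : k[X], f.Monic → g.Monic → Φ (f * g) = Φ f * Φ g)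
    (j : ℕ) :
    (j : ℂ) * ∑ f ∈ MD k j, Φ f =
      ∑ i ∈ Finset.range j, (∑ d ∈ MD k (i + 1), (vM d : ℂ) * Φ d) *
        ∑ h ∈ MD k (j - 1 - i), Φ h := by
  classical
  rw [Finset.mul_sum]
  have h1 : ∀ f ∈ MD k j, (j : ℂ) * Φ f = ∑ i ∈ Finset.range j, ∑ d ∈ MD k (i + 1),
      (vM d : ℂ) * (if d ∣ f then Φ f else 0) := by
    intro f hf
    rw [← Newton.key' hf, Finset.sum_mul]
    refine Finset.sum_congr rfl fun i _ => ?_
    rw [Finset.sum_mul]
    refine Finset.sum_congr rfl fun d _ => ?_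
    split_ifs <;> simp
  rw [Finset.sum_congr rfl h1, Finset.sum_comm]
  refine Finset.sum_congr rfl fun i hi => ?_
  rw [Finset.mem_range] at hi
  rw [Finset.sum_comm, Finset.sum_mul]
  refine Finset.sum_congr rfl fun d hd => ?_
  rw [← Finset.mul_sum, Newton.multiples Φ hm (show i + 1 ≤ j by omega) hd,
    show j - 1 - i = j - (i + 1) by omega, mul_assoc]

end Pool.Agent.MP_8b8716_co_W
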