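import Mathlib
import Pool.Agent.Lib.MP_196a10_nt.Base
import Pool.Agent.Lib.MP_8b8716_co_W.W1

set_option autoImplicit false
set_option linter.unusedSectionVars false

/-!
# MP_8b8716_co, Weil's bound: sums over points
-/

noncomputable section

namespace Pool.Agent.MP_8b8716_co_W

open Polynomial
open Pool.Agent.MP196 (Pt mem_Pt one_lt_q)

variable {k : Type} [Field k] [Finite k] {q : ℕ} (hq : Nat.card k = q)

include hq in
theorem one_lt_qM {M : ℕ} (hM : 1 ≤ M) : 1 < q ^ M := by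
  have h := one_lt_q hq
  exact one_lt_pow₀ h (by omega)

include hq in
theorem card_Pt (Ω : Type) [Field Ω] [Algebra k Ω] [IsAlgClosed Ω] {M : ℕ} (hM : 1 ≤ M) :
    (Pt Ω (q ^ M)).card = q ^ M := by
  classical
  have := Fintype.ofFinite k
  obtain ⟨p, hp⟩ := CharP.exists k
  have hpΩ : CharP Ω p := (Algebra.charP_iff k Ω p).1 hp
  obtain ⟨n, hpp, hn⟩ := FiniteField.card k p
  have hdvd : p ∣ q ^ M := by
    rw [← hq, Nat.card_eq_fintype_card, hn, ← pow_mul]
    exact dvd_pow_self p (Nat.mul_pos n.pos (by omega)).ne'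
  have hsep : (X ^ (q ^ M) - X : Polynomial Ω).Separable := galois_poly_separable p (q ^ M) hdvd
  have h1 := nodup_roots hsep
  have h2 := (IsAlgClosed.splits (X ^ (q ^ M) - X : Polynomial Ω)).natDegree_eq_card_roots
  rw [FiniteField.X_pow_card_sub_X_natDegree_eq Ω (one_lt_qM hq hM)] at h2
  unfold Pt
  rw [Multiset.toFinset_card_of_nodup h1, ← h2]

namespace SPts

/-- Monic irreducible polynomials of degree dividing `M`. -/
def II (k : Type) [Field k] [Finite k] (M : ℕ) : Finset k[X] := by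
  classical
  exact ((Finset.range (M + 1)).biUnion (MD k)).filter (fun P => Irreducible P ∧ P.natDegree ∣ M)

theorem mem_II {M : ℕ} (hM : 1 ≤ M) {P : k[X]} :
    P ∈ II k M ↔ (P.Monic ∧ Irreducible P) ∧ P.natDegree ∣ M := by
  classical
  unfold II
  rw [Finset.mem_filter, Finset.mem_biUnion]
  constructor
  · rintro ⟨⟨j, _, h1⟩, h2⟩
    exact ⟨⟨(mem_MD.1 h1).1, h2.1⟩, h2.2⟩
  · intro h
    refine ⟨⟨P.natDegree, ?_, ?_⟩, h.1.2, h.2⟩
    · rw [Finset.mem_range]
      have := Nat.le_of_dvd (by omega) h.2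
      omega
    · rw [mem_MD]
      exact ⟨h.1.1, rfl⟩

omit [Finite k] in
theorem Phi_pow (Φ : k[X] → ℂ)
    (hm : ∀ f g : k[X], f.Monic → g.Monic → Φ (f * g) = Φ f * Φ g) {P : k[X]}
    (hP : P.Monic) {m : ℕ} (h : 0 < m) : Φ (P ^ m) = Φ P ^ m := by
  induction m with
  | zero => omega
  | succ m ih =>
    rcases Nat.eq_zero_or_pos m with rfl | h0
    · simp
    · rw [pow_succ, hm _ _ (hP.pow _) hP, ih h0, pow_succ]

theorem div_deg_pos {M : ℕ} (hM : 1 ≤ M) {P : k[X]} (h : P ∈ II k M) : 0 < M / P.natDegree := by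
  rw [mem_II hM] at h
  exact Nat.div_pos (Nat.le_of_dvd (by omega) h.2) h.1.2.natDegree_pos

theorem left_side (Φ : k[X] → ℂ)
    (hm : ∀ f g : k[X], f.Monic → g.Monic → Φ (f * g) = Φ f * Φ g) (M : ℕ) (hM : 1 ≤ M) :
    ∑ f ∈ MD k M, (vM f : ℂ) * Φ f =
      ∑ P ∈ II k M, (P.natDegree : ℂ) * Φ P ^ (M / P.natDegree) := by
  classical
  have h1 : (II k M).image (fun P => P ^ (M / P.natDegree)) ⊆ MD k M := by
    intro f hf
    rw [Finset.mem_image] at hf
    obtain ⟨P, hP, rfl⟩ := hf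
    rw [mem_II hM] at hP
    rw [mem_MD]
    refine ⟨hP.1.1.pow _, ?_⟩
    rw [natDegree_pow, Nat.div_mul_cancel hP.2]
  rw [← Finset.sum_subset h1, Finset.sum_image]
  · apply Finset.sum_congr rfl
    intro P hP
    have hpos := div_deg_pos hM hP
    rw [mem_II hM] at hP
    rw [vM_pow hP.1 hpos, Phi_pow Φ hm hP.1.1 hpos]
  · intro P hP Q hQ h
    have hpos := div_deg_pos hM (Finset.mem_coe.mp hP)
    exact (irreducible_pow_unique ((mem_II hM).mp (Finset.mem_coe.mp hP)).1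
      ((mem_II hM).mp (Finset.mem_coe.mp hQ)).1 hpos h).1
  · intro f hf hf2
    rw [vM_eq_zero, Nat.cast_zero, zero_mul]
    rintro ⟨P, hP, m, hm0, rfl⟩
    apply hf2
    have hdeg := (mem_MD.1 hf).2
    rw [natDegree_pow] at hdeg
    rw [Finset.mem_image]
    refine ⟨P, ?_, ?_⟩
    · rw [mem_II hM]
      exact ⟨hP, ⟨m, by rw [← hdeg, mul_comm]⟩⟩
    · rw [← hdeg, Nat.mul_div_cancel _ hP.2.natDegree_pos]

omit [Finite k] in
theorem isIntegral_of_pow (Ω : Type) [Field Ω] [Algebra k Ω] {Q : ℕ} (hQ : 1 < Q) {x : Ω}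
    (hx : x ^ Q = x) : IsIntegral k x := by
  refine ⟨X ^ Q - X, monic_X_pow_sub (by rw [degree_X]; exact_mod_cast hQ), ?_⟩
  rw [← aeval_def]
  simp [hx]

include hq in
theorem minpoly_mem (Ω : Type) [Field Ω] [Algebra k Ω] {M : ℕ} (hM : 1 ≤ M) {x : Ω}
    (hx : x ^ (q ^ M) = x) : minpoly k x ∈ II k M := by
  have hi := isIntegral_of_pow (k := k) Ω (one_lt_qM hq hM) hx
  have hirr := minpoly.irreducible hi
  rw [mem_II hM]
  refine ⟨⟨minpoly.monic hi, hirr⟩, ?_⟩
  apply hirr.natDegree_dvd_of_dvd_X_pow_card_pow_sub_X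
  apply minpoly.dvd
  rw [hq]
  simp [hx]

include hq in
theorem fibre_card (Ω : Type) [Field Ω] [Algebra k Ω] [IsAlgClosed Ω] {M : ℕ}
    (hM : 1 ≤ M) {P : k[X]} (hP : P ∈ II k M) [DecidableEq k[X]] :
    ((Pt Ω (q ^ M)).filter (fun x => minpoly k x = P)).card = P.natDegree := by
  classical
  have hP' := (mem_II hM).mp hP
  have hsep : P.Separable := PerfectField.separable_of_irreducible hP'.1.2
  have h1 := card_rootSet_eq_natDegree (K := Ω) hsep (IsAlgClosed.splits _)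
  rw [← h1, ← Set.toFinset_card]
  congr 1
  ext x
  rw [Finset.mem_filter, mem_Pt (one_lt_qM hq hM), Set.mem_toFinset,
    mem_rootSet_of_ne hP'.1.2.ne_zero]
  constructor
  · rintro ⟨_, rfl⟩
    exact minpoly.aeval _ _
  · intro h
    constructor
    · have hd := hP'.1.2.natDegree_dvd_iff_dvd_X_pow_card_pow_sub_X.mp hP'.2
      rw [hq] at hd
      obtain ⟨c, hc⟩ := hd
      have h2 := congrArg (aeval x) hc
      rw [map_mul, h, zero_mul] at h2
      simpa [sub_eq_zero] using h2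
    · exact (minpoly.eq_of_irreducible_of_monic hP'.1.2 h hP'.1.1).symm

end SPts

include hq in
theorem sum_points (Ω : Type) [Field Ω] [Algebra k Ω] [IsAlgClosed Ω] (Φ : k[X] → ℂ)
    (hm : ∀ f g : k[X], f.Monic → g.Monic → Φ (f * g) = Φ f * Φ g) (M : ℕ) (hM : 1 ≤ M) :
    ∑ f ∈ MD k M, (vM f : ℂ) * Φ f =
      ∑ x ∈ Pt Ω (q ^ M), Φ (minpoly k x) ^ (M / (minpoly k x).natDegree) := by
  classical
  rw [SPts.left_side Φ hm M hM]
  rw [← Finset.sum_fiberwise_of_maps_to (s := Pt Ω (q ^ M)) (t := SPts.II k M)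
    (g := fun x => minpoly k x)]
  · apply Finset.sum_congr rfl
    intro P hP
    rw [Finset.sum_congr rfl (g := fun _ => Φ P ^ (M / P.natDegree))]
    · rw [Finset.sum_const, SPts.fibre_card hq Ω hM hP, nsmul_eq_mul]
    · intro x hx
      rw [Finset.mem_filter] at hx
      rw [hx.2]
  · intro x hx
    rw [mem_Pt (one_lt_qM hq hM)] at hx
    exact SPts.minpoly_mem hq Ω hM hx

end Pool.Agent.MP_8b8716_co_W
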