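import Mathlib
import Pool.Agent.Lib.MP_196a10_nt.Base
import Pool.Agent.Lib.MP_8b8716_co_W.W2

set_option autoImplicit false
set_option linter.unusedSectionVars false

/-!
# MP_8b8716_co, Weil's bound: the multiplicative function of a Kloosterman sum
-/

noncomputable section

namespace Pool.Agent.MP_8b8716_co_W

open Polynomial
open Pool.Agent.MP196 (Pt mem_Pt one_lt_q frobm frobm_apply exists_of_pow_q)

/-- the sum of `y + b / y` over the roots of `f` -/
def Lb {R : Type} [Field R] (b : R) (f : R[X]) : R := -f.nextCoeff - b * (f.coeff 1 / f.coeff 0)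

theorem Lb_one {R : Type} [Field R] (b : R) : Lb b (1 : R[X]) = 0 := by
  have h : (1 : R[X]).nextCoeff = 0 := by
    rw [← C_1, nextCoeff_C_eq_zero]
  unfold Lb
  rw [h, coeff_one]
  simp

theorem Lb_mul {R : Type} [Field R] (b : R) {f g : R[X]} (hf : f.Monic) (hg : g.Monic)
    (hf0 : f.coeff 0 ≠ 0) (hg0 : g.coeff 0 ≠ 0) : Lb b (f * g) = Lb b f + Lb b g := by
  unfold Lb
  rw [hf.nextCoeff_mul hg, mul_coeff_zero, mul_coeff_one]
  field_simp
  ring

theorem Lb_X_sub_C {R : Type} [Field R] (b : R) {y : R} (hy : y ≠ 0) :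
    Lb b (X - C y) = y + b / y := by
  unfold Lb
  rw [nextCoeff_X_sub_C]
  simp only [coeff_sub, coeff_X_one, coeff_X_zero, coeff_C_zero, coeff_C_succ, sub_zero, zero_sub,
    neg_neg]
  have : (X - C y : R[X]).coeff 1 = 1 := by
    rw [coeff_sub, coeff_X_one, coeff_C, if_neg one_ne_zero, sub_zero]
  field_simp
  ring

theorem Lb_prod {R : Type} [Field R] (b : R) (y : ℕ → R) (hy : ∀ i, y i ≠ 0) (M : ℕ) :
    (∏ i ∈ Finset.range M, (X - C (y i))).Monic ∧
      (∏ i ∈ Finset.range M, (X - C (y i))).coeff 0 ≠ 0 ∧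
      Lb b (∏ i ∈ Finset.range M, (X - C (y i))) = ∑ i ∈ Finset.range M, (y i + b / y i) := by
  induction M with
  | zero =>
    rw [Finset.prod_range_zero, Finset.sum_range_zero]
    exact ⟨monic_one, by simp, Lb_one b⟩
  | succ M ih =>
    obtain ⟨h1, h2, h3⟩ := ih
    have h4 : (X - C (y M)).coeff 0 ≠ 0 := by
      simp [hy M]
    rw [Finset.prod_range_succ, Finset.sum_range_succ]
    refine ⟨h1.mul (monic_X_sub_C _), ?_, ?_⟩
    · rw [mul_coeff_zero]
      exact mul_ne_zero h2 h4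
    · rw [Lb_mul b h1 (monic_X_sub_C _) h2 h4, h3, Lb_X_sub_C b (hy M)]

theorem Lb_map {R S : Type} [Field R] [Field S] (φ : R →+* S) (b : R) (f : R[X]) :
    Lb (φ b) (f.map φ) = φ (Lb b f) := by
  unfold Lb
  rw [nextCoeff_map φ.injective, coeff_map, coeff_map, map_sub, map_neg, map_mul, map_div₀]

variable {k : Type} [Field k]

/-- the multiplicative function -/
def Ph (ψ : AddChar k ℂ) (b : k) (f : k[X]) : ℂ := by
  classical
  exact if f.coeff 0 = 0 then 0 else ψ (Lb b f)

theorem Ph_zero (ψ : AddChar k ℂ) (b : k) {f : k[X]} (h : f.coeff 0 = 0) : Ph ψ b f = 0 := by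
  unfold Ph
  rw [if_pos h]

theorem Ph_ne (ψ : AddChar k ℂ) (b : k) {f : k[X]} (h : f.coeff 0 ≠ 0) :
    Ph ψ b f = ψ (Lb b f) := by
  unfold Ph
  rw [if_neg h]

theorem Ph_mul (ψ : AddChar k ℂ) (b : k) (f g : k[X]) (hf : f.Monic) (hg : g.Monic) :
    Ph ψ b (f * g) = Ph ψ b f * Ph ψ b g := by
  by_cases h1 : f.coeff 0 = 0
  · rw [Ph_zero ψ b h1, zero_mul, Ph_zero]
    rw [mul_coeff_zero, h1, zero_mul]
  · by_cases h2 : g.coeff 0 = 0
    · rw [Ph_zero ψ b h2, mul_zero, Ph_zero]
      rw [mul_coeff_zero, h2, mul_zero]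
    · rw [Ph_ne ψ b h1, Ph_ne ψ b h2, Ph_ne, Lb_mul b hf hg h1 h2, AddChar.map_add_eq_mul]
      rw [mul_coeff_zero]
      exact mul_ne_zero h1 h2

theorem Ph_one (ψ : AddChar k ℂ) (b : k) : Ph ψ b 1 = 1 := by
  rw [Ph_ne ψ b (by simp), Lb_one, AddChar.map_zero_eq_one]

section
variable [Finite k]

/-- the coefficients of the L-function -/
def aa (ψ : AddChar k ℂ) (b : k) (j : ℕ) : ℂ := ∑ f ∈ MD k j, Ph ψ b f

theorem aa_zero (ψ : AddChar k ℂ) (b : k) : aa ψ b 0 = 1 := by
  unfold aa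
  rw [MD_zero, Finset.sum_singleton, Ph_one]

theorem aa_large {ψ : AddChar k ℂ} (hψ : ψ ≠ 1) (b : k) {j : ℕ} (hj : 3 ≤ j) : aa ψ b j = 0 := by
  obtain ⟨c, hc⟩ : ∃ c, ψ c ≠ 1 := by
    by_contra h
    push Not at h
    exact hψ (by ext x; rw [h x, AddChar.one_apply])
  have hdeg : ∀ (c : k) (f : k[X]), f.Monic ∧ f.natDegree = j →
      (C c * X ^ (j - 1)).degree < f.degree := by
    intro c f hf
    rw [degree_eq_natDegree hf.1.ne_zero, hf.2]
    refine lt_of_le_of_lt (degree_C_mul_X_pow_le _ _) ?_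
    exact_mod_cast (by omega : j - 1 < j)
  have hmem : ∀ (c : k) (f : k[X]), f ∈ MD k j → f + C c * X ^ (j - 1) ∈ MD k j := by
    intro c f hf
    rw [mem_MD] at hf ⊢
    refine ⟨hf.1.add_of_left (hdeg c f hf), ?_⟩
    rw [natDegree_add_eq_left_of_degree_lt (hdeg c f hf), hf.2]
  have h1 : aa ψ b j = ψ c * aa ψ b j := by
    unfold aa
    rw [Finset.mul_sum]
    refine Finset.sum_bij' (fun f _ => f + C c * X ^ (j - 1)) (fun f _ => f + C (-c) * X ^ (j - 1))
      (fun f hf => hmem c f hf) (fun f hf => hmem (-c) f hf) ?_ ?_ ?_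
    · intro f _
      rw [C_neg]
      ring
    · intro f _
      rw [C_neg]
      ring
    · intro f hf
      have hf' := mem_MD.1 hf
      have hf2 := mem_MD.1 (hmem c f hf)
      have h0 : (f + C c * X ^ (j - 1)).coeff 0 = f.coeff 0 := by
        rw [coeff_add, coeff_C_mul, coeff_X_pow, if_neg (by omega), mul_zero, add_zero]
      have h1 : (f + C c * X ^ (j - 1)).coeff 1 = f.coeff 1 := by
        rw [coeff_add, coeff_C_mul, coeff_X_pow, if_neg (by omega), mul_zero, add_zero]
      have hn : (f + C c * X ^ (j - 1)).nextCoeff = f.nextCoeff + c := by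
        rw [nextCoeff_of_natDegree_pos (by omega), nextCoeff_of_natDegree_pos (by omega), hf2.2,
          hf'.2, coeff_add, coeff_C_mul, coeff_X_pow, if_pos rfl, mul_one]
      by_cases h2 : f.coeff 0 = 0
      · rw [Ph_zero ψ b h2, Ph_zero ψ b (h0.trans h2), mul_zero]
      · rw [Ph_ne ψ b h2, Ph_ne ψ b (by rwa [h0])]
        unfold Lb
        rw [h0, h1, hn, ← AddChar.map_add_eq_mul]
        congr 1
        ring
  have h2 : (1 - ψ c) * aa ψ b j = 0 := by linear_combination h1
  rcases mul_eq_zero.1 h2 with h3 | h3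
  · exact absurd (sub_eq_zero.1 h3).symm hc
  · exact h3

end

section
variable [Finite k] {q : ℕ} (hq : Nat.card k = q) {Ω : Type} [Field Ω] [Algebra k Ω]
  [IsAlgClosed Ω]

include hq

/-- the product over the conjugates is a power of the minimal polynomial -/
theorem prod_conj {M : ℕ} (hM : 1 ≤ M) {x : Ω} (hx : x ^ (q ^ M) = x) :
    ((minpoly k x) ^ (M / (minpoly k x).natDegree)).map (algebraMap k Ω) =
      ∏ i ∈ Finset.range M, (X - C (x ^ (q ^ i))) := by
  classical
  set F : Polynomial Ω := ∏ i ∈ Finset.range M, (X - C (x ^ (q ^ i))) with hF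
  have hFm : F.Monic := monic_prod_of_monic _ _ fun i _ => monic_X_sub_C _
  have hFd : F.natDegree = M := by
    rw [hF, natDegree_prod_of_monic _ _ fun i _ => monic_X_sub_C _,
      Finset.sum_congr rfl (fun i _ => natDegree_X_sub_C _), Finset.sum_const, Finset.card_range,
      smul_eq_mul, mul_one]
  have hfr : F.map (frobm hq Ω 1).toRingHom = F := by
    have h1 : F.map (frobm hq Ω 1).toRingHom =
        ∏ i ∈ Finset.range M, (X - C (x ^ (q ^ (i + 1)))) := by
      rw [hF, Polynomial.map_prod]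
      refine Finset.prod_congr rfl fun i _ => ?_
      rw [Polynomial.map_sub, map_X, map_C]
      congr 2
      show (x ^ (q ^ i)) ^ (q ^ 1) = _
      rw [pow_one, ← pow_mul, ← pow_succ]
    have h2 := Finset.prod_range_succ' (fun i => (X - C (x ^ (q ^ i)) : Polynomial Ω)) M
    rw [Finset.prod_range_succ, pow_zero, pow_one, hx] at h2
    rw [h1]
    exact (mul_right_cancel₀ (X_sub_C_ne_zero x) h2).symm
  have hlift : F ∈ lifts (algebraMap k Ω) := by
    rw [lifts_iff_coeff_lifts]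
    intro n
    have h1 := congrArg (fun f => coeff f n) hfr
    simp only [coeff_map] at h1
    have h2 : (F.coeff n) ^ q = F.coeff n := by
      have h3 : (F.coeff n) ^ (q ^ 1) = F.coeff n := h1
      rwa [pow_one] at h3
    obtain ⟨a, ha⟩ := exists_of_pow_q hq (F.coeff n) h2
    exact ⟨a, ha⟩
  obtain ⟨F0, hF0, hd0, hm0⟩ := lifts_and_natDegree_eq_and_monic hlift hFm
  have hi : IsIntegral k x := SPts.isIntegral_of_pow (k := k) Ω (one_lt_qM hq hM) hx
  -- all the irreducible factors are equal to the minimal polynomial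
  have hfac : ∀ P ∈ UniqueFactorizationMonoid.normalizedFactors F0, P = minpoly k x := by
    intro P hP
    have hPi := Newton.mem_factors hP
    have hPd : P ∣ F0 := UniqueFactorizationMonoid.dvd_of_mem_normalizedFactors hP
    obtain ⟨y, hy⟩ := IsAlgClosed.exists_aeval_eq_zero Ω P
      (ne_of_gt (by
        rw [degree_eq_natDegree hPi.2.ne_zero]
        exact_mod_cast hPi.2.natDegree_pos))
    have hyF : F.eval y = 0 := by
      obtain ⟨g, hg⟩ := hPd
      rw [← hF0, eval_map_algebraMap, hg, map_mul, hy, zero_mul]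
    rw [hF, eval_prod, Finset.prod_eq_zero_iff] at hyF
    obtain ⟨i, _, hi'⟩ := hyF
    rw [eval_sub, eval_X, eval_C, sub_eq_zero] at hi'
    have h1 : aeval y (minpoly k x) = 0 := by
      rw [hi']
      have h2 : x ^ (q ^ i) = frobm hq Ω i x := (frobm_apply hq Ω i x).symm
      rw [h2, aeval_algHom_apply, minpoly.aeval, map_zero]
    rw [minpoly.eq_of_irreducible_of_monic hPi.2 hy hPi.1,
      ← minpoly.eq_of_irreducible_of_monic (minpoly.irreducible hi) h1 (minpoly.monic hi)]
  have hrep := Multiset.eq_replicate_card.2 hfac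
  have hprod := Newton.prod_factors hm0
  rw [hrep, Multiset.prod_replicate] at hprod
  set e := (UniqueFactorizationMonoid.normalizedFactors F0).card with he
  have hdeg : e * (minpoly k x).natDegree = M := by
    rw [← natDegree_pow, hprod, hd0, hFd]
  have hdiv : M / (minpoly k x).natDegree = e := by
    rw [← hdeg, Nat.mul_div_cancel _ (minpoly.natDegree_pos hi)]
  rw [hdiv, hprod, hF0]

theorem point_value (ψ : AddChar k ℂ) (b : k) {M : ℕ} (hM : 1 ≤ M) {x : Ω}
    (hx : x ^ (q ^ M) = x) (hx0 : x ≠ 0) :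
    ∃ t : k, algebraMap k Ω t =
        ∑ i ∈ Finset.range M, (x ^ (q ^ i) + algebraMap k Ω b / x ^ (q ^ i)) ∧
      Ph ψ b (minpoly k x) ^ (M / (minpoly k x).natDegree) = ψ t := by
  have hi : IsIntegral k x := SPts.isIntegral_of_pow (k := k) Ω (one_lt_qM hq hM) hx
  have hmem := SPts.minpoly_mem hq Ω hM hx
  have hpos := SPts.div_deg_pos hM hmem
  have h1 := prod_conj hq hM hx
  obtain ⟨h2, h3, h4⟩ := Lb_prod (algebraMap k Ω b) (fun i => x ^ (q ^ i))
    (fun i => pow_ne_zero _ hx0) M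
  rw [← h1] at h2 h3 h4
  refine ⟨Lb b (minpoly k x ^ (M / (minpoly k x).natDegree)), ?_, ?_⟩
  · rw [← h4, Lb_map]
  · rw [← SPts.Phi_pow (Ph ψ b) (Ph_mul ψ b) (minpoly.monic hi) hpos, Ph_ne]
    intro h
    apply h3
    rw [coeff_map, h, map_zero]

theorem point_value_zero (ψ : AddChar k ℂ) (b : k) {M : ℕ} (hM : 1 ≤ M) :
    Ph ψ b (minpoly k (0 : Ω)) ^ (M / (minpoly k (0 : Ω)).natDegree) = 0 := by
  rw [minpoly.zero, natDegree_X, Ph_zero ψ b (coeff_X_zero), Nat.div_one, zero_pow (by omega)]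

end

end Pool.Agent.MP_8b8716_co_W
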