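import Mathlib
import Pool.Agent.Lib.MP_196a10_nt.Base
import Pool.Agent.Lib.MP_8b8716_co_W.W3

set_option autoImplicit false
set_option linter.unusedSectionVars false

/-!
# MP_8b8716_co, Weil's bound: the values of the Kloosterman function over a large finite field are
not constant
-/

noncomputable section

namespace Pool.Agent.MP_8b8716_co_W

open Polynomial
open Pool.Agent.MP196 (Pt mem_Pt one_lt_q frobm frobm_apply exists_of_pow_q pow_qm)

variable {k : Type} [Field k] [Finite k] {q : ℕ} (hq : Nat.card k = q) {Ω : Type} [Field Ω]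
  [Algebra k Ω]

/-- the trace -/
def Tr (q M : ℕ) (z : Ω) : Ω := ∑ i ∈ Finset.range M, z ^ (q ^ i)

include hq

theorem add_pow_qm (m : ℕ) (x y : Ω) : (x + y) ^ (q ^ m) = x ^ (q ^ m) + y ^ (q ^ m) := by
  have h := map_add (frobm hq Ω m) x y
  exact h

theorem alg_pow_qm (m : ℕ) (a : k) : (algebraMap k Ω a) ^ (q ^ m) = algebraMap k Ω a := by
  rw [← map_pow, pow_qm hq]

theorem Tr_add (M : ℕ) (x y : Ω) : Tr q M (x + y) = Tr q M x + Tr q M y := by
  unfold Tr
  rw [← Finset.sum_add_distrib]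
  exact Finset.sum_congr rfl fun i _ => add_pow_qm hq i x y

theorem Tr_smul (M : ℕ) (a : k) (y : Ω) :
    Tr q M (algebraMap k Ω a * y) = algebraMap k Ω a * Tr q M y := by
  unfold Tr
  rw [Finset.mul_sum]
  refine Finset.sum_congr rfl fun i _ => ?_
  rw [mul_pow, alg_pow_qm hq]

theorem Tr_mem {M : ℕ} {z : Ω} (hz : z ^ (q ^ M) = z) : ∃ a : k, algebraMap k Ω a = Tr q M z := by
  apply exists_of_pow_q hq
  have h1 : (Tr q M z) ^ q = ∑ i ∈ Finset.range M, z ^ (q ^ (i + 1)) := by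
    have h2 : (Tr q M z) ^ (q ^ 1) = frobm hq Ω 1 (Tr q M z) := (frobm_apply hq Ω 1 _).symm
    rw [pow_one] at h2
    rw [h2]
    unfold Tr
    rw [map_sum]
    refine Finset.sum_congr rfl fun i _ => ?_
    rw [frobm_apply, pow_one, ← pow_mul, ← pow_succ]
  rw [h1]
  unfold Tr
  have h3 := Finset.sum_range_succ' (fun i => z ^ (q ^ i)) M
  rw [Finset.sum_range_succ, pow_zero, pow_one, hz] at h3
  exact (add_right_cancel h3).symm

theorem Tr_kl (M : ℕ) (b : k) (x : Ω) :
    Tr q M (x + algebraMap k Ω b / x) =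
      ∑ i ∈ Finset.range M, (x ^ (q ^ i) + algebraMap k Ω b / x ^ (q ^ i)) := by
  unfold Tr
  refine Finset.sum_congr rfl fun i _ => ?_
  rw [add_pow_qm hq, div_pow, alg_pow_qm hq]

variable [IsAlgClosed Ω]

theorem exists_Tr_ne {M : ℕ} (hM : 1 ≤ M) : ∃ y : Ω, y ^ (q ^ M) = y ∧ Tr q M y ≠ 0 := by
  classical
  by_contra hcon
  push Not at hcon
  have hq1 := one_lt_q hq
  set f : Polynomial Ω := ∑ i ∈ Finset.range M, X ^ (q ^ i) with hf
  have hf1 : f.coeff 1 = 1 := by
    rw [hf, finsetSum_coeff, Finset.sum_eq_single 0]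
    · rw [pow_zero, pow_one, coeff_X_one]
    · intro i _ hi
      rw [coeff_X_pow, if_neg]
      intro h
      exact (one_lt_pow₀ hq1 hi).ne h
    · intro h
      exact absurd (Finset.mem_range.2 (by omega)) h
  have hf0 : f ≠ 0 := by
    intro h
    rw [h, coeff_zero] at hf1
    exact zero_ne_one hf1
  have hdeg : f.natDegree ≤ q ^ (M - 1) := by
    rw [hf]
    refine natDegree_sum_le_of_forall_le _ _ fun i hi => ?_
    rw [natDegree_X_pow]
    have := Finset.mem_range.1 hi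
    exact Nat.pow_le_pow_right (by omega) (by omega)
  have h1 : (Pt Ω (q ^ M)).card ≤ f.natDegree := by
    refine le_trans (Finset.card_le_card (t := f.roots.toFinset) ?_)
      (le_trans (Multiset.toFinset_card_le _) (card_roots' f))
    intro y hy
    rw [mem_Pt (one_lt_qM hq hM)] at hy
    rw [Multiset.mem_toFinset, mem_roots hf0, IsRoot.def, hf, eval_finsetSum]
    have := hcon y hy
    unfold Tr at this
    simpa using this
  rw [card_Pt hq Ω hM] at h1
  have h2 : q ^ (M - 1) < q ^ M := Nat.pow_lt_pow_right hq1 (by omega)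
  omega

theorem exists_t {M : ℕ} (hM : 4 ≤ M) :
    ∃ t : Ω, t ^ (q ^ M) = t ∧ t ≠ 0 ∧ t + 1 ≠ 0 ∧ t ^ 2 + t + 1 ≠ 0 := by
  classical
  by_contra hcon
  push Not at hcon
  have hq1 := one_lt_q hq
  set f : Polynomial Ω := X * (X + C 1) * (X ^ 2 + X + C 1) with hf
  have hm2 : (X ^ 2 + X + C 1 : Polynomial Ω).Monic := by
    monicity!
  have hfm : f.Monic := (monic_X.mul (monic_X_add_C 1)).mul hm2
  have hdeg : f.natDegree ≤ 4 := by
    rw [hf]
    compute_degree
  have h1 : (Pt Ω (q ^ M)).card ≤ f.natDegree := by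
    refine le_trans (Finset.card_le_card (t := f.roots.toFinset) ?_)
      (le_trans (Multiset.toFinset_card_le _) (card_roots' f))
    intro y hy
    rw [mem_Pt (one_lt_qM hq (by omega))] at hy
    rw [Multiset.mem_toFinset, mem_roots hfm.ne_zero, IsRoot.def, hf]
    simp only [eval_mul, eval_X, eval_add, eval_C, eval_pow]
    by_cases h0 : y = 0
    · rw [h0]; ring
    · by_cases h1 : y + 1 = 0
      · rw [h1]; ring
      · rw [hcon y hy h0 h1, mul_zero]
  rw [card_Pt hq Ω (by omega)] at h1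
  have h2 : 2 ^ 4 ≤ q ^ M := by
    calc 2 ^ 4 ≤ q ^ 4 := Nat.pow_le_pow_left (by omega) 4
      _ ≤ q ^ M := Nat.pow_le_pow_right (by omega) hM
  norm_num at h2
  omega

/-- the values are not constant -/
theorem not_const {ψ : AddChar k ℂ} (hψ : ψ ≠ 1) {b : k} (hb : b ≠ 0) {M : ℕ} (hM : 4 ≤ M)
    (κ : ℂ) (h : ∀ (x : Ω) (t : k), x ≠ 0 → x ^ (q ^ M) = x →
      algebraMap k Ω t = Tr q M (x + algebraMap k Ω b / x) → ψ t = κ) : False := by
  classical
  have hinj := (algebraMap k Ω).injective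
  set B : Ω := algebraMap k Ω b with hB
  have hB0 : B ≠ 0 := by
    rw [hB]
    exact (_root_.map_ne_zero (algebraMap k Ω)).2 hb
  -- closure properties of the fixed points
  have hfB : B ^ (q ^ M) = B := alg_pow_qm hq M b
  have hdiv : ∀ x y : Ω, x ^ (q ^ M) = x → y ^ (q ^ M) = y → (x / y) ^ (q ^ M) = x / y := by
    intro x y hx hy
    rw [div_pow, hx, hy]
  have hmul : ∀ x y : Ω, x ^ (q ^ M) = x → y ^ (q ^ M) = y → (x * y) ^ (q ^ M) = x * y := by
    intro x y hx hy
    rw [mul_pow, hx, hy]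
  have hadd : ∀ x y : Ω, x ^ (q ^ M) = x → y ^ (q ^ M) = y → (x + y) ^ (q ^ M) = x + y := by
    intro x y hx hy
    rw [add_pow_qm hq, hx, hy]
  have hone : (1 : Ω) ^ (q ^ M) = 1 := one_pow _
  obtain ⟨t, ht, ht0, ht1, ht2⟩ := exists_t hq (Ω := Ω) hM
  -- the character is constant on the nonzero elements
  have hz : ∀ (z : Ω) (s : k), z ≠ 0 → z ^ (q ^ M) = z → algebraMap k Ω s = Tr q M z →
      ψ s = κ := by
    intro z s hz0 hzf hs
    set g : Ω := t ^ 2 + t + 1 with hg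
    have hgf : g ^ (q ^ M) = g := by
      rw [hg, sq]
      exact hadd _ _ (hadd _ _ (hmul _ _ ht ht) ht) hone
    set x : Ω := (B / z) * (g / (t * (t + 1))) with hx
    have htt : (t * (t + 1)) ^ (q ^ M) = t * (t + 1) := hmul _ _ ht (hadd _ _ ht hone)
    have hxf : x ^ (q ^ M) = x := hmul _ _ (hdiv _ _ hfB hzf) (hdiv _ _ hgf htt)
    have hx0 : x ≠ 0 := mul_ne_zero (div_ne_zero hB0 hz0)
      (div_ne_zero ht2 (mul_ne_zero ht0 ht1))
    have hyf : (t * x) ^ (q ^ M) = t * x := hmul _ _ ht hxf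
    have hy0 : t * x ≠ 0 := mul_ne_zero ht0 hx0
    have hwf : ((t + 1) * x) ^ (q ^ M) = (t + 1) * x := hmul _ _ (hadd _ _ ht hone) hxf
    have hw0 : (t + 1) * x ≠ 0 := mul_ne_zero ht1 hx0
    obtain ⟨a1, ha1⟩ := Tr_mem hq (hadd _ _ hxf (hdiv _ _ hfB hxf))
    obtain ⟨a2, ha2⟩ := Tr_mem hq (hadd _ _ hyf (hdiv _ _ hfB hyf))
    obtain ⟨a3, ha3⟩ := Tr_mem hq (hadd _ _ hwf (hdiv _ _ hfB hwf))
    have h1 := h x a1 hx0 hxf ha1
    have h2 := h (t * x) a2 hy0 hyf ha2
    have h3 := h ((t + 1) * x) a3 hw0 hwf ha3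
    have hkey : x + B / x + (t * x + B / (t * x)) = z + ((t + 1) * x + B / ((t + 1) * x)) := by
      have hzx : z = (B / x) * (g / (t * (t + 1))) := by
        rw [hx]
        field_simp
      rw [hzx, hg]
      field_simp
      ring
    have h4 : a1 + a2 = s + a3 := by
      apply hinj
      rw [map_add, map_add, ha1, ha2, ha3, hs, ← Tr_add hq, ← Tr_add hq, hkey]
    have h5 : ψ a1 * ψ a2 = ψ s * ψ a3 := by
      rw [← AddChar.map_add_eq_mul, ← AddChar.map_add_eq_mul, h4]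
    rw [h1, h2, h3] at h5
    have h6 : κ ≠ 0 := by
      rw [← h1]
      intro h0
      have h7 := AddChar.map_add_eq_mul ψ a1 (-a1)
      rw [h0, zero_mul, add_neg_cancel, AddChar.map_zero_eq_one] at h7
      exact one_ne_zero h7
    exact (mul_right_cancel₀ h6 h5).symm
  -- the constant is one
  have hκ : κ = 1 := by
    obtain ⟨a1, ha1⟩ := Tr_mem hq (z := t) ht
    obtain ⟨a2, ha2⟩ := Tr_mem hq (z := (1 : Ω)) hone
    have h1 := hz t a1 ht0 ht ha1
    have h2 := hz 1 a2 one_ne_zero hone ha2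
    have h3 := hz (t + 1) (a1 + a2) ht1 (hadd _ _ ht hone) (by
      rw [map_add, ha1, ha2, Tr_add hq])
    rw [AddChar.map_add_eq_mul, h1, h2] at h3
    have h6 : κ ≠ 0 := by
      rw [← h1]
      intro h0
      have h7 := AddChar.map_add_eq_mul ψ a1 (-a1)
      rw [h0, zero_mul, add_neg_cancel, AddChar.map_zero_eq_one] at h7
      exact one_ne_zero h7
    exact mul_left_cancel₀ h6 (by rw [h3, mul_one])
  obtain ⟨y0, hy0f, hy0T⟩ := exists_Tr_ne hq (Ω := Ω) (M := M) (by omega)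
  obtain ⟨a0, ha0⟩ := Tr_mem hq hy0f
  have ha00 : a0 ≠ 0 := by
    rintro rfl
    rw [map_zero] at ha0
    exact hy0T ha0.symm
  have hy00 : y0 ≠ 0 := by
    rintro rfl
    apply hy0T
    unfold Tr
    refine Finset.sum_eq_zero fun i _ => zero_pow ?_
    exact pow_ne_zero _ (by have := one_lt_q hq; omega)
  apply hψ
  ext a
  rw [AddChar.one_apply]
  by_cases ha : a = 0
  · rw [ha, AddChar.map_zero_eq_one]
  · rw [← hκ]
    refine hz (algebraMap k Ω (a / a0) * y0) a
      (mul_ne_zero ((_root_.map_ne_zero (algebraMap k Ω)).2 (div_ne_zero ha ha00)) hy00)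
      (hmul _ _ (alg_pow_qm hq M _) hy0f) ?_
    rw [Tr_smul hq, ← ha0, ← map_mul, div_mul_cancel₀ _ ha00]

end Pool.Agent.MP_8b8716_co_W
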