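import Mathlib
import Pool.Agent.Lib.MP_196a10_nt.Base
import Pool.Agent.Lib.MP_196a10_nt.Eqd
import Pool.Agent.Lib.MP_8b8716_co_W.W4

set_option autoImplicit false
set_option linter.unusedSectionVars false

/-!
# MP_8b8716_co, Weil's bound: the matrix of the Kloosterman sums
-/

noncomputable section

namespace Pool.Agent.MP_8b8716_co_W

open Polynomial
open Pool.Agent.MP196 (Pt mem_Pt one_lt_q frobm frobm_apply Gm equidist)

/-- matrices with equal diagonal entries -/
def um {R : Type} [CommRing R] (p r : R) : Matrix (Fin 2) (Fin 2) R := !![p, r; 0, p]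

theorem um_mul {R : Type} [CommRing R] (p r p' r' : R) :
    um p r * um p' r' = um (p * p') (p * r' + r * p') := by
  unfold um
  rw [Matrix.mul_fin_two]
  simp

theorem um_comm {R : Type} [CommRing R] (p r p' r' : R) :
    Commute (um p r) (um p' r') := by
  show um p r * um p' r' = um p' r' * um p r
  rw [um_mul, um_mul]
  congr 1 <;> ring

theorem um_one {R : Type} [CommRing R] : um (1 : R) 0 = 1 := by
  unfold um
  rw [Matrix.one_fin_two]

theorem um_map {R S : Type} [CommRing R] [CommRing S] (f : R → S) (h0 : f 0 = 0) (p r : R) :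
    (um p r).map f = um (f p) (f r) := by
  unfold um
  ext i j
  fin_cases i <;> fin_cases j <;> simp [h0]

theorem um_det {R : Type} [CommRing R] (p r : R) : (um p r).det = p ^ 2 := by
  unfold um
  rw [Matrix.det_fin_two_of]
  ring

theorem um_inj {R : Type} [CommRing R] {p r p' r' : R} (h : um p r = um p' r') :
    p = p' ∧ r = r' := by
  have h1 := congrFun (congrFun h 0) 0
  have h2 := congrFun (congrFun h 0) 1
  unfold um at h1 h2
  simpa using ⟨h1, h2⟩

variable {k : Type} [Field k]

/-- the matrix of polynomials -/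
def UM (b : k) : Matrix (Fin 2) (Fin 2) k[X] := um (1 + X) (X * (X + C (1 - b)))

theorem UM_zero (b : k) : (UM b).map (fun f => f.coeff 0) = 1 := by
  unfold UM
  rw [um_map (fun f : k[X] => f.coeff 0) (coeff_zero 0), ← um_one]
  congr 1
  · simp
  · simp

theorem UM_comm (b : k) (i j : ℕ) :
    Commute ((UM b).map (fun f => f.coeff i)) ((UM b).map (fun f => f.coeff j)) := by
  unfold UM
  rw [um_map (fun f : k[X] => f.coeff i) (coeff_zero i),
    um_map (fun f : k[X] => f.coeff j) (coeff_zero j)]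
  exact um_comm _ _ _ _

theorem UM_eval {Ω : Type} [Field Ω] [Algebra k Ω] (b : k) (x : Ω) :
    (UM b).map (aeval (x - 1)) = um x ((x - 1) * (x - algebraMap k Ω b)) := by
  unfold UM
  rw [um_map (fun f : k[X] => aeval (x - 1) f) (map_zero _)]
  congr 1
  · simp
  · simp

section
variable [Finite k] {q : ℕ} (hq : Nat.card k = q) {Ω : Type} [Field Ω] [Algebra k Ω]

include hq

/-- the value of the twisted power -/
theorem Gm_UM (b : k) (m : ℕ) {x : Ω} (hx : x ≠ 0) :
    (Gm q (UM b) m).map (aeval (x - 1)) = um (∏ i ∈ Finset.range m, x ^ (q ^ i))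
      ((∏ i ∈ Finset.range m, x ^ (q ^ i)) *
        (Tr q m (x + algebraMap k Ω b / x) - m * (1 + algebraMap k Ω b))) := by
  induction m generalizing x with
  | zero =>
    show (1 : Matrix (Fin 2) (Fin 2) k[X]).map (aeval (x - 1)) = _
    rw [Matrix.map_one _ (map_zero _) (map_one _)]
    unfold Tr
    simp only [Finset.prod_range_zero, Finset.sum_range_zero, Nat.cast_zero, zero_mul, sub_zero,
      mul_zero]
    exact um_one.symm
  | succ m ih =>
    rw [Pool.Agent.MP196.Eqd.Gm_eval_succ, UM_eval]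
    have hw : (x - 1) ^ q = x ^ q - 1 := by
      have h1 := map_sub (frobm hq Ω 1) x 1
      rw [frobm_apply, frobm_apply, frobm_apply, pow_one, one_pow] at h1
      exact h1
    rw [hw, ih (pow_ne_zero q hx), um_mul]
    have hP : ∏ i ∈ Finset.range (m + 1), x ^ (q ^ i) =
        (∏ i ∈ Finset.range m, (x ^ q) ^ (q ^ i)) * x := by
      rw [Finset.prod_range_succ', pow_zero, pow_one]
      congr 1
      refine Finset.prod_congr rfl fun i _ => ?_
      rw [← pow_mul, ← pow_succ']
    have hT : Tr q (m + 1) (x + algebraMap k Ω b / x) =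
        Tr q m (x ^ q + algebraMap k Ω b / x ^ q) + (x + algebraMap k Ω b / x) := by
      have h2 : x ^ q + algebraMap k Ω b / x ^ q = (x + algebraMap k Ω b / x) ^ q := by
        have h3 := add_pow_qm hq (Ω := Ω) 1 x (algebraMap k Ω b / x)
        have h4 := alg_pow_qm hq (Ω := Ω) 1 b
        rw [pow_one] at h3 h4
        rw [h3, div_pow, h4]
      rw [h2]
      unfold Tr
      rw [Finset.sum_range_succ', pow_zero, pow_one]
      congr 1
      refine Finset.sum_congr rfl fun i _ => ?_
      rw [← pow_mul, ← pow_succ']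
    rw [hP, hT]
    congr 1
    push_cast
    field_simp
    ring

end

/-- the group of the matrices -/
abbrev GG (k : Type) [Field k] : Type := kˣ × Multiplicative k

/-- the matrices as a group homomorphism -/
def mk0 (k : Type) [Field k] : GG k →* Matrix (Fin 2) (Fin 2) k where
  toFun g := um (g.1 : k) ((g.1 : k) * Multiplicative.toAdd g.2)
  map_one' := by
    rw [← um_one]
    congr 1
    simp
  map_mul' g h := by
    rw [um_mul]
    congr 1
    simp only [Prod.fst_mul, Prod.snd_mul, Units.val_mul, toAdd_mul]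
    ring

/-- the matrices as a group homomorphism -/
def mk (k : Type) [Field k] : GG k →* (Matrix (Fin 2) (Fin 2) k)ˣ := (mk0 k).toHomUnits

theorem mk_val (g : GG k) : ((mk k g : (Matrix (Fin 2) (Fin 2) k)ˣ) : Matrix (Fin 2) (Fin 2) k) =
    um (g.1 : k) ((g.1 : k) * Multiplicative.toAdd g.2) := rfl

theorem mk_injective : Function.Injective (mk k) := by
  intro g h hgh
  have h1 := congrArg (fun u : (Matrix (Fin 2) (Fin 2) k)ˣ => (u : Matrix (Fin 2) (Fin 2) k)) hgh
  simp only [mk_val] at h1
  obtain ⟨h2, h3⟩ := um_inj h1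
  have h4 : g.1 = h.1 := Units.ext h2
  rw [h4] at h3
  have h5 := mul_left_cancel₀ h.1.ne_zero h3
  exact Prod.ext h4 (Multiplicative.toAdd.injective h5)

section
variable [Finite k] {q : ℕ} (hq : Nat.card k = q) {Ω : Type} [Field Ω] [Algebra k Ω]
  [IsAlgClosed Ω]

include hq

/-- the points and the elements of the group -/
theorem point_group (ψ : AddChar k ℂ) (b : k) {H : Subgroup (Matrix (Fin 2) (Fin 2) k)ˣ}
    {M : ℕ} (hM : 1 ≤ M)
    (hH : ∀ w : Ω, w ^ (q ^ M) = w → ((UM b).map (aeval w)).det ≠ 0 →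
        ∃ h ∈ H, (Gm q (UM b) M).map (aeval w) =
          ((h : (Matrix (Fin 2) (Fin 2) k)ˣ) : Matrix (Fin 2) (Fin 2) k).map (algebraMap k Ω))
    {x : Ω} (hx : x ^ (q ^ M) = x) (hx0 : x ≠ 0) :
    ∃ g : GG k, mk k g ∈ H ∧
      (Gm q (UM b) M).map (aeval (x - 1)) =
        ((mk k g : (Matrix (Fin 2) (Fin 2) k)ˣ) : Matrix (Fin 2) (Fin 2) k).map
          (algebraMap k Ω) ∧
      Ph ψ b (minpoly k x) ^ (M / (minpoly k x).natDegree) =
        ψ (M * (1 + b)) * ψ (Multiplicative.toAdd g.2) := by
  obtain ⟨t, ht, hval⟩ := point_value hq ψ b hM hx hx0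
  have hw : (x - 1) ^ (q ^ M) = x - 1 := by
    have h1 := map_sub (frobm hq Ω M) x 1
    rw [frobm_apply, frobm_apply, frobm_apply, one_pow, hx] at h1
    exact h1
  have hdet : ((UM b).map (aeval (x - 1))).det ≠ 0 := by
    rw [UM_eval, um_det]
    exact pow_ne_zero _ hx0
  obtain ⟨h, hh, hG⟩ := hH (x - 1) hw hdet
  have hG2 := Gm_UM hq b M hx0
  rw [Tr_kl hq, ← ht] at hG2
  -- the diagonal entry
  have h00 : algebraMap k Ω ((h : Matrix (Fin 2) (Fin 2) k) 0 0) =
      ∏ i ∈ Finset.range M, x ^ (q ^ i) := by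
    have h1 := congrFun (congrFun (hG.symm.trans hG2) 0) 0
    simpa [um] using h1
  have hP0 : ∏ i ∈ Finset.range M, x ^ (q ^ i) ≠ 0 :=
    Finset.prod_ne_zero_iff.2 fun i _ => pow_ne_zero _ hx0
  have hp0 : (h : Matrix (Fin 2) (Fin 2) k) 0 0 ≠ 0 := by
    intro h0
    rw [h0, map_zero] at h00
    exact hP0 h00.symm
  set g : GG k := (Units.mk0 _ hp0, Multiplicative.ofAdd (t - M * (1 + b))) with hg
  have hmk : (Gm q (UM b) M).map (aeval (x - 1)) =
        ((mk k g : (Matrix (Fin 2) (Fin 2) k)ˣ) : Matrix (Fin 2) (Fin 2) k).map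
          (algebraMap k Ω) := by
    rw [hG2, mk_val, um_map _ (map_zero _)]
    simp only [hg, Units.val_mk0, toAdd_ofAdd]
    rw [map_mul, map_sub, map_mul, map_add, map_one, map_natCast, h00]
  refine ⟨g, ?_, hmk, ?_⟩
  · have h1 : mk k g = h := by
      apply Units.ext
      ext i j
      have h2 := congrFun (congrFun (hmk.symm.trans hG) i) j
      simp only [Matrix.map_apply] at h2
      exact (algebraMap k Ω).injective h2
    rw [h1]
    exact hh
  · rw [hval, ← AddChar.map_add_eq_mul]
    congr 1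
    simp only [hg, toAdd_ofAdd]
    ring

end

end Pool.Agent.MP_8b8716_co_W
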