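import Mathlib
import Pool.Agent.Lib.MP_196a10_nt.Base
import Pool.Agent.Lib.MP_196a10_nt.Eqd
import Pool.Agent.Lib.MP_196a10_nt.PSum
import Pool.Agent.Lib.MP_196a10_nt.RBound
import Pool.Agent.Lib.MP_8b8716_co_W.W5

set_option autoImplicit false
set_option linter.unusedSectionVars false

/-!
# MP_8b8716_co, Weil's bound: the Kloosterman sums
-/

noncomputable section

namespace Pool.Agent.MP_8b8716_co_W

open Polynomial
open Pool.Agent.MP196 (Pt mem_Pt one_lt_q frobm frobm_apply Gm equidist power_sums root_bound)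

/-- The combinatorial core: equidistribution in `H` from upper bounds. -/
theorem counting {X G : Type} [Fintype G] [DecidableEq G] (n : ℕ) (hn : Fintype.card G ≤ n)
    (P : Finset X) (y : X → G) (T s : ℝ) (c D : ℝ) (hc : 0 ≤ c) (hD : 0 ≤ D)
    (hs : 1 ≤ s) (hT : T = s ^ 2)
    (hub : ∀ a, n * ((P.filter (fun x => y x = a)).card : ℝ) ≤ T + c * s)
    (hlb : T - D ≤ P.card) (hbig : n * (D + c) < s) :
    ∀ a, |((P.filter (fun x => y x = a)).card : ℝ) - T / n| ≤ (D + c) * s := by
  classical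
  intro a
  have hG : 0 < Fintype.card G := Fintype.card_pos_iff.mpr ⟨a⟩
  have hn0 : (0 : ℝ) < n := by exact_mod_cast (by omega : 0 < n)
  have hn1 : (1 : ℝ) ≤ n := by exact_mod_cast (by omega : 1 ≤ n)
  have hub' : ∀ a, ((P.filter (fun x => y x = a)).card : ℝ) ≤ (T + c * s) / n := by
    intro a
    rw [le_div_iff₀ hn0, mul_comm]
    exact hub a
  have hsum : (P.card : ℝ) = ∑ a, ((P.filter (fun x => y x = a)).card : ℝ) := by
    rw [← Nat.cast_sum, ← Finset.card_eq_sum_card_fiberwise]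
    intro x _
    exact Finset.mem_univ _
  have hcard : (P.card : ℝ) ≤ Fintype.card G * ((T + c * s) / n) := by
    rw [hsum]
    calc _ ≤ ∑ _a : G, (T + c * s) / n := Finset.sum_le_sum fun a _ => hub' a
      _ = _ := by simp
  have hTpos : 0 < T := by rw [hT]; positivity
  have heq : Fintype.card G = n := by
    by_contra hne
    have hlt : (Fintype.card G : ℝ) ≤ n - 1 := by
      have : Fintype.card G + 1 ≤ n := by omega
      have : ((Fintype.card G + 1 : ℕ) : ℝ) ≤ n := by exact_mod_cast this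
      push_cast at this
      linarith
    have h1 : T - D ≤ (n - 1) * ((T + c * s) / n) := by
      refine le_trans hlb (le_trans hcard ?_)
      apply mul_le_mul_of_nonneg_right hlt
      positivity
    have h2 : (T - D) * n ≤ (n - 1) * (T + c * s) := by
      calc (T - D) * n ≤ ((n - 1) * ((T + c * s) / n)) * n :=
            mul_le_mul_of_nonneg_right h1 hn0.le
        _ = (n - 1) * (T + c * s) := by field_simp
    have h3 : T ≤ n * D + (n - 1) * (c * s) := by nlinarith
    have h4 : T ≤ n * (D + c) * s := by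
      have h5 : n * D ≤ n * D * s := le_mul_of_one_le_right (by positivity) hs
      have h6 : (n - 1) * (c * s) ≤ n * (c * s) :=
        mul_le_mul_of_nonneg_right (by linarith) (by positivity)
      nlinarith
    rw [hT, sq] at h4
    have h7 : s ≤ n * (D + c) := le_of_mul_le_mul_right h4 (by linarith)
    linarith
  have hlow : T - D - (n - 1) * ((T + c * s) / n) ≤
      ((P.filter (fun x => y x = a)).card : ℝ) := by
    have h1 : (P.card : ℝ) = ((P.filter (fun x => y x = a)).card : ℝ) +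
        ∑ b ∈ Finset.univ.erase a, ((P.filter (fun x => y x = b)).card : ℝ) := by
      rw [hsum]
      exact (Finset.add_sum_erase Finset.univ
        (fun b => ((P.filter (fun x => y x = b)).card : ℝ)) (Finset.mem_univ a)).symm
    have h2 : ∑ b ∈ Finset.univ.erase a, ((P.filter (fun x => y x = b)).card : ℝ) ≤
        (n - 1) * ((T + c * s) / n) := by
      calc _ ≤ ∑ _b ∈ Finset.univ.erase a, (T + c * s) / n :=
            Finset.sum_le_sum fun b _ => hub' b
        _ = ((Finset.univ.erase a).card : ℝ) * ((T + c * s) / n) := by simp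
        _ = (n - 1) * ((T + c * s) / n) := by
            congr 1
            rw [Finset.card_erase_of_mem (Finset.mem_univ a), Finset.card_univ, heq]
            rw [Nat.cast_sub (by omega)]
            simp
    linarith
  have hdiv : (T + c * s) / n = T / n + c * s / n := add_div _ _ _
  have hcs : c * s / n ≤ c * s := div_le_self (by positivity) hn1
  have hTn : (n : ℝ) * (T / n) = T := by field_simp
  have hcsn : (n : ℝ) * (c * s / n) = c * s := by field_simp
  have hDs : D ≤ D * s := le_mul_of_one_le_right hD hs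
  have hcsn0 : 0 ≤ c * s / n := by positivity
  rw [abs_le]
  constructor
  · have h1 : (n - 1 : ℝ) * ((T + c * s) / n) = T - T / n + (c * s - c * s / n) := by
      rw [hdiv, sub_mul, one_mul, mul_add, hTn, hcsn]; ring
    rw [h1] at hlow
    nlinarith
  · have h1 := hub' a
    rw [hdiv] at h1
    nlinarith


variable {k : Type} [Field k] [Finite k] {q : ℕ} (hq : Nat.card k = q)

/-- the power sums -/
def SM (ψ : AddChar k ℂ) (b : k) (M : ℕ) : ℂ := ∑ f ∈ MD k M, (vM f : ℂ) * Ph ψ b f

include hq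

/-- the bound for the power sums -/
theorem SM_bound {ψ : AddChar k ℂ} (hψ : ψ ≠ 1) {b : k} (hb : b ≠ 0) :
    ∃ (C : ℝ) (μ1 : ℕ), ∀ μ ≥ μ1, ‖SM ψ b (2 * μ)‖ ≤ C * (q : ℝ) ^ μ := by
  classical
  have hq1 := one_lt_q hq
  have hFk := Fintype.ofFinite k
  let Ω := AlgebraicClosure k
  obtain ⟨H, c, μ0, hEq⟩ := equidist k q hq (Fin 2) (UM b) (UM_zero b) (UM_comm b) Ω
  set H' : Subgroup (GG k) := H.comap (mk k) with hH'
  have hfinG : Finite (GG k) := by
    have : Finite (Multiplicative k) := inferInstanceAs (Finite k)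
    infer_instance
  have hFH : Fintype H' := Fintype.ofFinite H'
  set n : ℕ := Nat.card H with hn
  have hnH : Fintype.card H' ≤ n := by
    rw [← Nat.card_eq_fintype_card]
    exact Nat.card_le_card_of_injective (fun a : H' => (⟨mk k a, a.2⟩ : H))
      (fun a b hab => Subtype.ext (mk_injective (congrArg Subtype.val hab)))
  refine ⟨n * (1 + c), max μ0 (max 2 (n * (1 + c) + 1)), fun μ hμ => ?_⟩
  have hμ0 : μ0 ≤ μ := le_trans (le_max_left _ _) hμ
  have hμ2 : 2 ≤ μ := le_trans (le_trans (le_max_left _ _) (le_max_right _ _)) hμ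
  have hμn : n * (1 + c) + 1 ≤ μ := le_trans (le_trans (le_max_right _ _) (le_max_right _ _)) hμ
  obtain ⟨hE1, hE2⟩ := hEq μ hμ0
  set M := 2 * μ with hM
  have hM1 : 1 ≤ M := by omega
  have hQ1 := one_lt_qM hq hM1
  set PU : Finset Ω := (Pt Ω (q ^ M)).erase 0 with hPU
  have hmemPU : ∀ x, x ∈ PU ↔ x ≠ 0 ∧ x ^ (q ^ M) = x := by
    intro x
    rw [hPU, Finset.mem_erase, mem_Pt hQ1]
  have h0Pt : (0 : Ω) ∈ Pt Ω (q ^ M) := by
    rw [mem_Pt hQ1]
    exact zero_pow (by omega)
  have hcardPU : PU.card + 1 = q ^ M := by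
    rw [hPU, Finset.card_erase_of_mem h0Pt, card_Pt hq Ω hM1]
    omega
  -- the map to the group
  have hex : ∀ x : Ω, ∃ g : GG k, x ∈ PU → mk k g ∈ H ∧
      (Gm q (UM b) M).map (aeval (x - 1)) =
        ((mk k g : (Matrix (Fin 2) (Fin 2) k)ˣ) : Matrix (Fin 2) (Fin 2) k).map
          (algebraMap k Ω) ∧
      Ph ψ b (minpoly k x) ^ (M / (minpoly k x).natDegree) =
        ψ (M * (1 + b)) * ψ (Multiplicative.toAdd g.2) := by
    intro x
    by_cases hx : x ∈ PU
    · have hx' := (hmemPU x).1 hx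
      obtain ⟨g, hg⟩ := point_group hq ψ b hM1 (fun w hw hdet => hE1 w hw hdet) hx'.2 hx'.1
      exact ⟨g, fun _ => hg⟩
    · exact ⟨1, fun h => absurd h hx⟩
  choose y hy using hex
  let yH : Ω → H' := fun x => if h : y x ∈ H' then ⟨y x, h⟩ else 1
  have hyH : ∀ x ∈ PU, ((yH x : H') : GG k) = y x := by
    intro x hx
    have h1 : y x ∈ H' := (hy x hx).1
    simp only [yH, dif_pos h1]
  have hS : SM ψ b M = ψ (M * (1 + b)) * ∑ x ∈ PU, ψ (Multiplicative.toAdd (y x).2) := by
    unfold SM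
    rw [sum_points hq Ω (Ph ψ b) (Ph_mul ψ b) M hM1, ← Finset.add_sum_erase _ _ h0Pt,
      point_value_zero hq ψ b hM1, zero_add, Finset.mul_sum]
    exact Finset.sum_congr rfl fun x hx => (hy x hx).2.2
  have hnorm : ∀ a : k, ‖ψ a‖ = 1 := fun a => AddChar.norm_apply ψ a
  -- upper bounds of the fibres
  have hub : ∀ a : H', (n : ℝ) * ((PU.filter (fun x => yH x = a)).card : ℝ) ≤
      (q : ℝ) ^ M + c * (q : ℝ) ^ μ := by
    intro a
    have h1 := hE2 (mk k a) a.2 ((PU.filter (fun x => yH x = a)).image (fun x => x - 1)) (by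
      intro w hw'
      obtain ⟨x, hx, rfl⟩ := Finset.mem_image.mp hw'
      obtain ⟨hx1, hx2⟩ := Finset.mem_filter.mp hx
      have hx' := (hmemPU x).1 hx1
      refine ⟨?_, ?_, ?_⟩
      · have h1 := map_sub (frobm hq Ω M) x 1
        rw [frobm_apply, frobm_apply, frobm_apply, one_pow, hx'.2] at h1
        exact h1
      · rw [UM_eval, um_det]
        exact pow_ne_zero _ hx'.1
      · rw [(hy x hx1).2.1, ← hyH x hx1, hx2])
    rw [Finset.card_image_of_injective _ (sub_left_injective)] at h1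
    exact_mod_cast h1
  have hlb : (q : ℝ) ^ M - 1 ≤ PU.card := by
    have h1 : ((PU.card : ℕ) : ℝ) + 1 = (q : ℝ) ^ M := by exact_mod_cast hcardPU
    linarith
  have hqr : (1 : ℝ) ≤ q := by exact_mod_cast hq1.le
  have hcount := counting n hnH PU yH ((q : ℝ) ^ M) ((q : ℝ) ^ μ) c 1 (by positivity)
    zero_le_one (one_le_pow₀ hqr) (by rw [← pow_mul, mul_comm μ 2]) hub hlb (by
      have h1 : n * (1 + c) < 2 ^ μ := lt_of_lt_of_le (by omega) (Nat.lt_two_pow_self).le
      have h2 : 2 ^ μ ≤ q ^ μ := Nat.pow_le_pow_left (by omega) μ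
      exact_mod_cast lt_of_lt_of_le h1 h2)
  -- the character is not trivial on the group
  by_cases htriv : ∀ a : H', ψ (Multiplicative.toAdd (a : GG k).2) = 1
  · exfalso
    refine not_const hq (Ω := Ω) hψ hb (M := M) (by omega) (ψ (M * (1 + b))) ?_
    intro x t hx0 hx ht
    have hxP : x ∈ PU := (hmemPU x).2 ⟨hx0, hx⟩
    have h1 := (hy x hxP).2.2
    rw [← hyH x hxP, htriv, mul_one] at h1
    obtain ⟨t', ht', hv⟩ := point_value hq ψ b hM1 hx hx0
    rw [Tr_kl hq, ← ht'] at ht
    have h2 : t = t' := (algebraMap k Ω).injective ht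
    rw [h2, ← hv, h1]
  · push Not at htriv
    obtain ⟨h, hh⟩ := htriv
    have h0 : ∑ a : H', ψ (Multiplicative.toAdd (a : GG k).2) = 0 := by
      have h1 : ψ (Multiplicative.toAdd (h : GG k).2) *
          ∑ a : H', ψ (Multiplicative.toAdd (a : GG k).2) =
          ∑ a : H', ψ (Multiplicative.toAdd (a : GG k).2) := by
        rw [Finset.mul_sum]
        apply Fintype.sum_equiv (Equiv.mulLeft h)
        intro a
        rw [Equiv.coe_mulLeft, Subgroup.coe_mul, Prod.snd_mul, toAdd_mul,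
          AddChar.map_add_eq_mul]
      have h2 : (ψ (Multiplicative.toAdd (h : GG k).2) - 1) *
          ∑ a : H', ψ (Multiplicative.toAdd (a : GG k).2) = 0 := by
        rw [sub_mul, h1, one_mul, sub_self]
      rcases mul_eq_zero.mp h2 with h3 | h3
      · exact absurd (sub_eq_zero.mp h3) hh
      · exact h3
    have h1 : ∑ x ∈ PU, ψ (Multiplicative.toAdd (y x).2) =
        ∑ a : H', ψ (Multiplicative.toAdd (a : GG k).2) *
          (((PU.filter (fun x => yH x = a)).card : ℂ) - (((q : ℝ) ^ M / n : ℝ) : ℂ)) := by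
      simp only [mul_sub]
      rw [Finset.sum_sub_distrib, ← Finset.sum_mul, h0, zero_mul, sub_zero,
        ← Finset.sum_fiberwise_of_maps_to (s := PU) (t := Finset.univ) (g := yH)
          (fun x _ => Finset.mem_univ _)]
      apply Finset.sum_congr rfl
      intro a _
      rw [Finset.sum_congr rfl (g := fun _ => ψ (Multiplicative.toAdd (a : GG k).2))]
      · rw [Finset.sum_const, nsmul_eq_mul, mul_comm]
      · intro x hx
        obtain ⟨hx1, hx2⟩ := Finset.mem_filter.mp hx
        rw [← hyH x hx1, hx2]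
    rw [hS, norm_mul, hnorm, one_mul, h1]
    calc _ ≤ ∑ a : H', ‖ψ (Multiplicative.toAdd (a : GG k).2) *
          (((PU.filter (fun x => yH x = a)).card : ℂ) - (((q : ℝ) ^ M / n : ℝ) : ℂ))‖ :=
            norm_sum_le _ _
      _ ≤ ∑ _a : H', ((1 : ℝ) + c) * (q : ℝ) ^ μ := by
          apply Finset.sum_le_sum
          intro a _
          rw [norm_mul, hnorm, one_mul]
          have h2 := hcount a
          rw [← Real.norm_eq_abs, ← Complex.norm_real] at h2
          push_cast at h2 ⊢
          exact h2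
      _ = Fintype.card H' * (((1 : ℝ) + c) * (q : ℝ) ^ μ) := by simp
      _ ≤ n * (((1 : ℝ) + c) * (q : ℝ) ^ μ) := by
          apply mul_le_mul_of_nonneg_right _ (by positivity)
          exact_mod_cast hnH
      _ = _ := by ring

/-- Weil's bound for the power sum of order one -/
theorem SM_one_le {ψ : AddChar k ℂ} (hψ : ψ ≠ 1) {b : k} (hb : b ≠ 0) :
    ‖SM ψ b 1‖ ≤ 2 * Real.sqrt q := by
  obtain ⟨r, α, hr, hα⟩ := power_sums (aa ψ b) (SM ψ b) 3 (aa_zero ψ b)
    (fun j hj => aa_large hψ b hj) (fun j => newton (Ph ψ b) (Ph_mul ψ b) j)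
  obtain ⟨C, μ1, hC⟩ := SM_bound hq hψ hb
  have hq1 := one_lt_q hq
  have hq0 : (0 : ℝ) < q := by exact_mod_cast (by omega : 0 < q)
  have hs : (Real.sqrt q) ^ 2 = q := Real.sq_sqrt hq0.le
  have hroot : ∀ i, ‖α i‖ ≤ Real.sqrt q := by
    refine root_bound α 2 (by norm_num) C (Real.sqrt q) (Real.sqrt_pos.2 hq0) (max μ1 1) ?_
    intro μ hμ
    have h1 := hC μ (le_trans (le_max_left _ _) hμ)
    have h2 : 1 ≤ μ := le_trans (le_max_right _ _) hμ
    rw [hα (2 * μ) (by omega), norm_neg] at h1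
    rw [pow_mul (Real.sqrt q), hs]
    exact h1
  rw [hα 1 le_rfl, norm_neg]
  calc ‖∑ i, α i ^ 1‖ ≤ ∑ i, ‖α i ^ 1‖ := norm_sum_le _ _
    _ ≤ ∑ _i : Fin r, Real.sqrt q := Finset.sum_le_sum fun i _ => by rw [pow_one]; exact hroot i
    _ = r * Real.sqrt q := by simp
    _ ≤ 2 * Real.sqrt q := by
      have : (r : ℝ) ≤ 2 := by exact_mod_cast (by omega : r ≤ 2)
      exact mul_le_mul_of_nonneg_right this (Real.sqrt_nonneg _)

omit hq in
theorem SM_one_eq [Fintype k] [DecidableEq k] (ψ : AddChar k ℂ) (b : k) :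
    SM ψ b 1 = ∑ x ∈ Finset.univ.erase (0 : k), ψ (x + b / x) := by
  have h1 := newton (Ph ψ b) (Ph_mul ψ b) 1
  rw [Finset.sum_range_one, MD_zero, Finset.sum_singleton, Ph_one, mul_one, Nat.cast_one,
    one_mul] at h1
  have h2 : SM ψ b 1 = ∑ f ∈ MD k 1, Ph ψ b f := h1.symm
  rw [h2]
  have h3 : MD k 1 = Finset.univ.image (fun x : k => (X - C x : k[X])) := by
    ext f
    rw [mem_MD, Finset.mem_image]
    constructor
    · rintro ⟨hm, hd⟩
      refine ⟨-f.coeff 0, Finset.mem_univ _, ?_⟩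
      rw [C_neg, sub_neg_eq_add]
      exact (hm.eq_X_add_C hd).symm
    · rintro ⟨x, _, rfl⟩
      exact ⟨monic_X_sub_C x, natDegree_X_sub_C x⟩
  rw [h3, Finset.sum_image (fun x _ y _ h => by
    have h4 := congrArg (fun f => f.coeff 0) h
    simpa using h4), ← Finset.add_sum_erase _ _ (Finset.mem_univ (0 : k)),
    Ph_zero ψ b (by simp), zero_add]
  refine Finset.sum_congr rfl fun x hx => ?_
  have hx0 : x ≠ 0 := Finset.ne_of_mem_erase hx
  rw [Ph_ne ψ b (by simpa using hx0), Lb_X_sub_C b hx0]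

/-- Weil's bound for Kloosterman sums -/
theorem kloosterman_le [Fintype k] [DecidableEq k] {ψ : AddChar k ℂ} (hψ : ψ ≠ 1) {b : k}
    (hb : b ≠ 0) : ‖∑ x ∈ Finset.univ.erase (0 : k), ψ (x + b / x)‖ ≤ 2 * Real.sqrt q := by
  rw [← SM_one_eq]
  exact SM_one_le hq hψ hb

end Pool.Agent.MP_8b8716_co_W
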